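import Pool.Agent.Y916.Af.Stm

/-!
# Job AF/NR: the free coordinates have no relations at algebraic points (helper475)
-/

set_option autoImplicit false

open PowerSeries Module Filter AlgebraicIndependent

namespace Pool.Agent.Y475.AF

open Pool.Agent.Y916 Pool.Agent.Y916.Af Pool.Agent.Y916.Al Pool.Agent.Y120.GH Pool.Agent.Y118.UL

variable {r : ℕ}

/-- the value of a polynomial in the functions -/
theorem ev_aeval (h : Fin r → ℚ⟦X⟧) (x : ℂ) (hx : ∀ j, Cvc x (h j))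
    (R : MvPolynomial (Fin r) (Polynomial ℚ)) :
    Cvc x (MvPolynomial.aeval h R) ∧ evc x (MvPolynomial.aeval h R) =
      MvPolynomial.eval₂ (Polynomial.aeval x : Polynomial ℚ →ₐ[ℚ] ℂ).toRingHom
        (fun j => evc x (h j)) R := by
  induction R using MvPolynomial.induction_on with
  | C a =>
    have e : MvPolynomial.aeval h (MvPolynomial.C a : MvPolynomial (Fin r) (Polynomial ℚ)) =
        (a : ℚ⟦X⟧) := by
      rw [MvPolynomial.aeval_C, PowerSeries.algebraMap_apply']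
      ext n
      simp
    rw [e, MvPolynomial.eval₂_C]
    exact ⟨Cvc.coe a, ev_coe a⟩
  | add p q hp hq =>
    rw [map_add, MvPolynomial.eval₂_add, ← hp.2, ← hq.2]
    exact ⟨hp.1.add hq.1, hp.1.ev_add hq.1⟩
  | mul_X p j hp =>
    rw [map_mul, MvPolynomial.aeval_X, MvPolynomial.eval₂_mul, MvPolynomial.eval₂_X, ← hp.2]
    exact ⟨hp.1.mul (hx j), hp.1.ev_mul (hx j)⟩

/-- convergence for small arguments -/
theorem small_cvc (h : Fin r → ℚ⟦X⟧)
    (hs : ∃ C : ℝ, ∀ i m, |((coeff m (h i) : ℚ) : ℝ)| ≤ C ^ (m + 1)) :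
    ∃ ε : ℝ, 0 < ε ∧ ∀ x : ℂ, ‖x‖ < ε → ∀ j, Cvc x (h j) := by
  obtain ⟨C, hC⟩ := hs
  have hC' : 0 < |C| + 1 := by positivity
  refine ⟨1 / (|C| + 1), by positivity, fun x hx j => ?_⟩
  refine Cvc.of_bound (A := |C| + 1) (B := |C| + 1) hC'.le ?_ fun m => ?_
  · rw [lt_div_iff₀ hC'] at hx
    linarith
  · rw [← pow_succ', Complex.norm_ratCast]
    refine (hC j m).trans ((le_abs_self _).trans ?_)
    rw [abs_pow]
    exact pow_le_pow_left₀ (abs_nonneg _) (by linarith) _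

/-- a polynomial has no small roots different from zero -/
theorem small_root (c : Polynomial ℚ) (hc : c ≠ 0) :
    ∃ ε : ℝ, 0 < ε ∧ ∀ x : ℂ, x ≠ 0 → ‖x‖ < ε → Polynomial.aeval x c ≠ 0 := by
  have hfin : (c.rootSet ℂ \ {0}).Finite := (Polynomial.rootSet_finite c ℂ).subset Set.sdiff_subset
  have hopen : IsOpen (c.rootSet ℂ \ {0})ᶜ := hfin.isClosed.isOpen_compl
  obtain ⟨ε, hε, hball⟩ := Metric.isOpen_iff.1 hopen 0 (by simp)
  refine ⟨ε, hε, fun x hx0 hx h0 => ?_⟩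
  have h1 : x ∈ (c.rootSet ℂ \ {0})ᶜ := hball (by simpa using hx)
  exact h1 ⟨(Polynomial.mem_rootSet).2 ⟨hc, h0⟩, hx0⟩

/-- rational constants -/
theorem mk_rat (q : ℚ) : mk ℂ (fun _ => algebraMap ℚ ℂ q) = algebraMap ℚ (U ℂ) q := by
  have h : ((mk ℂ).comp (algebraMap ℚ (ℕ → ℂ))) = algebraMap ℚ (U ℂ) := Subsingleton.elim _ _
  exact DFunLike.congr_fun h q

theorem aeval_mk1 (xs : ℕ → ℂ) (c : Polynomial ℚ) :
    Polynomial.aeval (mk ℂ xs) c = mk ℂ (fun n => Polynomial.aeval (xs n) c) := by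
  induction c using Polynomial.induction_on' with
  | add p q hp hq =>
    rw [map_add, hp, hq, ← map_add]
    congr 1
    funext n
    rw [Pi.add_apply, map_add]
  | monomial n a =>
    rw [Polynomial.aeval_monomial, ← mk_rat, ← map_pow, ← map_mul]
    congr 1
    funext m
    rw [Polynomial.aeval_monomial]
    rfl

theorem eval₂_mk (xs : ℕ → ℂ) (ys : Fin r → ℕ → ℂ) (R : MvPolynomial (Fin r) (Polynomial ℚ)) :
    MvPolynomial.eval₂ (Polynomial.aeval (mk ℂ xs) : Polynomial ℚ →ₐ[ℚ] U ℂ).toRingHom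
      (fun j => mk ℂ (ys j)) R =
    mk ℂ (fun n => MvPolynomial.eval₂ (Polynomial.aeval (xs n) : Polynomial ℚ →ₐ[ℚ] ℂ).toRingHom
      (fun j => ys j n) R) := by
  induction R using MvPolynomial.induction_on with
  | C a =>
    rw [MvPolynomial.eval₂_C]
    have h1 : (Polynomial.aeval (mk ℂ xs) : Polynomial ℚ →ₐ[ℚ] U ℂ).toRingHom a =
        Polynomial.aeval (mk ℂ xs) a := rfl
    rw [h1, aeval_mk1]
    congr 1
    funext n
    rw [MvPolynomial.eval₂_C]
    rfl
  | add p q hp hq =>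
    rw [MvPolynomial.eval₂_add, hp, hq, ← map_add]
    congr 1
    funext n
    rw [Pi.add_apply, MvPolynomial.eval₂_add]
  | mul_X p j hp =>
    rw [MvPolynomial.eval₂_mul, MvPolynomial.eval₂_X, hp, ← map_mul]
    congr 1
    funext n
    rw [Pi.mul_apply, MvPolynomial.eval₂_mul, MvPolynomial.eval₂_X]

/-- the distance from the shifts -/
theorem small_x (G : ℕ) (ε : ℝ) (hε : 0 < ε) : ∃ n₀ : ℕ, ∀ (n H g : ℕ) (ξ : ℂ), n₀ ≤ n →
    ((H : ℝ) + 2) ^ n ≤ ‖ξ‖ → g ≤ H → 1 / (ξ - ((G * g : ℕ) : ℂ)) ≠ 0 ∧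
      ‖1 / (ξ - ((G * g : ℕ) : ℂ))‖ < ε := by
  obtain ⟨m, hm⟩ := pow_unbounded_of_one_lt ((G : ℝ) + 1 / ε + 1) (show (1 : ℝ) < 2 by norm_num)
  refine ⟨m + 1, fun n H g ξ hn hξ hg => ?_⟩
  have hH : (0 : ℝ) ≤ (H : ℝ) := Nat.cast_nonneg H
  have hε' : 0 < 1 / ε := by positivity
  have h1 : ((H : ℝ) + 2) * 2 ^ m ≤ ((H : ℝ) + 2) ^ n := by
    have h2 : ((H : ℝ) + 2) ^ (m + 1) ≤ ((H : ℝ) + 2) ^ n := pow_le_pow_right₀ (by linarith) hn
    refine le_trans ?_ h2
    rw [pow_succ']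
    exact mul_le_mul_of_nonneg_left (pow_le_pow_left₀ (by norm_num) (by linarith) m) (by linarith)
  have h3 : ((H : ℝ) + 2) * ((G : ℝ) + 1 / ε + 1) ≤ ‖ξ‖ :=
    (mul_le_mul_of_nonneg_left hm.le (by linarith)).trans (h1.trans hξ)
  have h4 : ‖((G * g : ℕ) : ℂ)‖ ≤ (G : ℝ) * H := by
    rw [Complex.norm_natCast, Nat.cast_mul]
    exact mul_le_mul_of_nonneg_left (by exact_mod_cast hg) (Nat.cast_nonneg G)
  have h5 : ‖ξ‖ - ‖((G * g : ℕ) : ℂ)‖ ≤ ‖ξ - ((G * g : ℕ) : ℂ)‖ := norm_sub_norm_le _ _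
  have hG : (0 : ℝ) ≤ (G : ℝ) := Nat.cast_nonneg G
  have h6 : 1 / ε < ‖ξ - ((G * g : ℕ) : ℂ)‖ := by nlinarith
  have h7 : 0 < ‖ξ - ((G * g : ℕ) : ℂ)‖ := hε'.trans h6
  refine ⟨one_div_ne_zero (norm_pos_iff.1 h7), ?_⟩
  rw [norm_div, norm_one, div_lt_iff₀ h7]
  rw [div_lt_iff₀ hε] at h6
  linarith

/-- the number of the monomials -/
theorem card_Mon (I : Finset (Fin r)) (s : ℕ) : (s + 1) ^ I.card ≤ (Mon ((I.card + 1) * s) I).card := by
  classical
  have h1 : (s + 1) ^ I.card = (Fintype.piFinset fun _ : I => Finset.range (s + 1)).card := by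
    rw [Fintype.card_piFinset]
    simp
  rw [h1]
  refine Finset.card_le_card_of_injOn (fun f j => if hj : j ∈ I then f ⟨j, hj⟩ else 0) ?_ ?_
  · intro f hf
    rw [Finset.mem_coe, Fintype.mem_piFinset] at hf
    rw [Finset.mem_coe, mem_Mon]
    refine ⟨fun j hj => dif_neg hj, ?_⟩
    have h2 : ∑ j, (if hj : j ∈ I then f ⟨j, hj⟩ else 0) ≤ ∑ j, (if j ∈ I then s else 0) := by
      refine Finset.sum_le_sum fun j _ => ?_
      split_ifs with hj
      · have := hf ⟨j, hj⟩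
        rw [Finset.mem_range] at this
        omega
      · exact le_rfl
    refine h2.trans ?_
    rw [Finset.sum_ite_mem, Finset.univ_inter, Finset.sum_const, smul_eq_mul]
    exact Nat.mul_le_mul_right s (Nat.le_succ _)
  · intro f _ f' _ hff
    funext j
    have h2 := congrFun hff j.1
    simp only at h2
    rw [dif_pos j.2, dif_pos j.2] at h2
    exact h2

/-- monomials of bounded degree are finitely many -/
theorem mons_finite {Ω σ : Type} [Field Ω] [Fintype σ] (v : σ → Ω) (D : ℕ) : (mons v D).Finite := by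
  classical
  have h1 : {n : σ → ℕ | ∑ s, n s ≤ D}.Finite := by
    refine (Set.finite_Iic (fun _ : σ => D)).subset fun n hn s => ?_
    exact (Finset.single_le_sum (f := n) (fun _ _ => Nat.zero_le _) (Finset.mem_univ s)).trans hn
  refine (h1.image fun n => ∏ s, v s ^ n s).subset ?_
  rintro z ⟨n, hn, rfl⟩
  exact ⟨n, hn, rfl⟩

theorem mons_one {Ω σ : Type} [Field Ω] [Fintype σ] (v : σ → Ω) : (1 : Ω) ∈ mons v 0 :=
  ⟨fun _ => 0, by simp, by simp⟩

theorem mons_mul {Ω σ : Type} [Field Ω] [Fintype σ] (v : σ → Ω) {D D' : ℕ} {z z' : Ω}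
    (h : z ∈ mons v D) (h' : z' ∈ mons v D') : z * z' ∈ mons v (D + D') := by
  obtain ⟨n, hn, rfl⟩ := h
  obtain ⟨n', hn', rfl⟩ := h'
  refine ⟨fun s => n s + n' s, ?_, ?_⟩
  · rw [Finset.sum_add_distrib]
    exact add_le_add hn hn'
  · rw [← Finset.prod_mul_distrib]
    exact Finset.prod_congr rfl fun s _ => (pow_add _ _ _).symm

theorem mons_var {Ω σ : Type} [Field Ω] [Fintype σ] (v : σ → Ω) (s : σ) : v s ∈ mons v 1 := by
  classical
  refine ⟨fun t => if t = s then 1 else 0, by simp, ?_⟩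
  rw [Finset.prod_eq_single s]
  · simp
  · intro t _ ht
    simp [ht]
  · intro h
    exact absurd (Finset.mem_univ s) h

theorem mons_mono {Ω σ : Type} [Field Ω] [Fintype σ] (v : σ → Ω) {D D' : ℕ} (h : D ≤ D') :
    mons v D ⊆ mons v D' := by
  rintro z ⟨n, hn, rfl⟩
  exact ⟨n, hn.trans h, rfl⟩

theorem mons_pow {Ω σ : Type} [Field Ω] [Fintype σ] (v : σ → Ω) {z : Ω} (h : z ∈ mons v 1)
    (k : ℕ) : z ^ k ∈ mons v k := by
  induction k with
  | zero => rw [pow_zero]; exact mons_one v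
  | succ k ih => rw [pow_succ]; exact mons_mul v ih h

theorem mons_prod {Ω σ κ : Type} [Field Ω] [Fintype σ] (v : σ → Ω) (s : Finset κ) (f : κ → Ω)
    (D : ℕ) (h : ∀ i ∈ s, f i ∈ mons v D) : ∏ i ∈ s, f i ∈ mons v (s.card * D) := by
  classical
  induction s using Finset.induction_on with
  | empty => simpa using mons_one v
  | insert a s ha ih =>
    rw [Finset.prod_insert ha, Finset.card_insert_of_notMem ha]
    have h1 := mons_mul v (h a (Finset.mem_insert_self _ _))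
      (ih fun i hi => h i (Finset.mem_insert_of_mem hi))
    refine mons_mono v ?_ h1
    rw [Nat.succ_mul]
    omega

/-- sequences of polynomials of bounded degree which are not zero -/
theorem not_ind {κ : Type} [Fintype κ] (z : κ → ℕ → ℂ) (Δ : ℕ) (Q : ℕ → MvPolynomial κ ℚ)
    (hd : ∀ n, (Q n).totalDegree ≤ Δ) (hne : ∀ n, Q n ≠ 0)
    (h0 : ∀ n, MvPolynomial.aeval (fun i => z i n) (Q n) = 0) :
    ¬ AlgebraicIndependent (U ℚ) (fun i => mk ℂ (z i)) := by
  classical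
  obtain ⟨Q', hQ'⟩ := of_seq Δ Q hd
  intro hind
  rw [algebraicIndependent_iff] at hind
  have h1 := hind (MvPolynomial.map (mk ℚ) Q') (by
    rw [aeval_mk, mk_eq_zero]
    refine Eventually.of_forall fun n => ?_
    rw [hQ' n]
    exact h0 n)
  have h2 : ∀ m ∈ Q'.support, ∀ᶠ n in (hyperfilter ℕ : Filter ℕ), (Q n).coeff m = 0 := by
    intro m _
    have h3 := congrArg (MvPolynomial.coeff m) h1
    rw [MvPolynomial.coeff_map, MvPolynomial.coeff_zero, mk_eq_zero] at h3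
    filter_upwards [h3] with n hn
    rw [← hQ' n, MvPolynomial.coeff_map]
    exact hn
  have h4 : ∀ᶠ n in (hyperfilter ℕ : Filter ℕ), ∀ m ∈ Q'.support, (Q n).coeff m = 0 :=
    (Finset.eventually_all _).2 h2
  obtain ⟨n, hn⟩ := h4.exists
  apply hne n
  ext m
  rw [MvPolynomial.coeff_zero]
  by_cases hm : m ∈ Q'.support
  · exact hn m hm
  · rw [← hQ' n, MvPolynomial.coeff_map, MvPolynomial.notMem_support_iff.1 hm]
    rfl

/-- linear independence of representatives -/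
theorem lift_ind {κ : Type} [Fintype κ] {m : ℕ} (a : Fin m → κ → ℕ → ℚ)
    (h : LinearIndependent (U ℚ) (fun i => fun b => mk ℚ (a i b))) :
    ∀ᶠ n in (hyperfilter ℕ : Filter ℕ), LinearIndependent ℚ (fun i => fun b => a i b n) := by
  classical
  by_contra hcon
  rw [← Ultrafilter.eventually_not] at hcon
  have h1 : ∀ n, ∃ c : Fin m → ℚ, (¬ LinearIndependent ℚ (fun i => fun b => a i b n)) →
      (∑ i, c i • (fun b => a i b n) = 0 ∧ c ≠ 0) := by
    intro n
    by_cases hn : LinearIndependent ℚ (fun i => fun b => a i b n)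
    · exact ⟨0, fun h => absurd hn h⟩
    · obtain ⟨c, hc, i, hi⟩ := Fintype.not_linearIndependent_iff.1 hn
      exact ⟨c, fun _ => ⟨hc, fun h0 => hi (by rw [h0]; rfl)⟩⟩
  choose c hc using h1
  have h2 : ∑ i, (mk ℚ (fun n => c n i)) • (fun b => mk ℚ (a i b)) = 0 := by
    funext b
    rw [Finset.sum_apply]
    simp only [Pi.smul_apply, smul_eq_mul, Pi.zero_apply]
    simp only [← map_mul, ← map_sum]
    rw [mk_eq_zero]
    filter_upwards [hcon] with n hn
    have h3 := congrFun (hc n hn).1 b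
    rw [Finset.sum_apply] at h3
    simp only [Pi.smul_apply, smul_eq_mul, Pi.zero_apply] at h3
    rw [Finset.sum_apply]
    exact h3
  have h4 := Fintype.linearIndependent_iff.1 h (fun i => mk ℚ (fun n => c n i)) h2
  have h5 : ∀ᶠ n in (hyperfilter ℕ : Filter ℕ), ∀ i, c n i = 0 := by
    rw [eventually_all]
    intro i
    exact mk_eq_zero.1 (h4 i)
  obtain ⟨n, hn1, hn2⟩ := (hcon.and h5).exists
  exact (hc n hn1).2 (funext hn2)

theorem nr_of : S_fam → S_hf → S_rk → S_nr := by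
  classical
  intro hfam hhf hrk r T A h hGF
  obtain ⟨G0, hG0, hG⟩ := hfam r T A h hGF
  refine ⟨G0, hG0, fun G hGG I hFree N Δ d A' => ?_⟩
  by_contra hcon
  push Not at hcon
  choose H K ξ X hfd hrank hPt hbig hX g hginj hgb Q hQd hQ0 hQne using hcon
  -- the points
  obtain ⟨xs, hxs⟩ : ∃ xs : Fin N → ℕ → ℂ, xs = fun l n =>
    1 / ((ξ n : ℂ) - ((G * g n l : ℕ) : ℂ)) := ⟨_, rfl⟩
  obtain ⟨zs, hzs⟩ : ∃ zs : Fin N → Option (Fin r) → ℕ → ℂ, zs = fun l o n =>
    vc G h (ξ n) (g n l) o := ⟨_, rfl⟩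
  have hxsmall : ∀ ε : ℝ, 0 < ε → ∀ᶠ n in (hyperfilter ℕ : Filter ℕ), ∀ l,
      xs l n ≠ 0 ∧ ‖xs l n‖ < ε := by
    intro ε hε
    obtain ⟨n₀, hn₀⟩ := small_x G ε hε
    filter_upwards [ev_ge n₀] with n hn l
    rw [hxs]
    exact hn₀ n (H n) (g n l) (ξ n) hn (hbig n) (hgb n l).2
  -- (1)
  have hdep : ¬ AlgebraicIndependent (U ℚ) (fun p : Fin N × Option I =>
      mk ℂ (zs p.1 (p.2.map Subtype.val))) :=
    not_ind (fun p : Fin N × Option I => zs p.1 (p.2.map Subtype.val)) Δ Q hQd hQne (by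
      intro n
      rw [hzs]
      exact hQ0 n)
  -- (2)
  have halg : ∀ l, IsAlgebraic (U ℚ) (mk ℂ (xs l)) := by
    intro l
    refine alg_of_degree K hfd hrank _ fun n => ?_
    rw [hxs]
    exact (K n).div_mem (K n).one_mem ((K n).sub_mem (ξ n).2 (natCast_mem (K n) _))
  have hroot : ∀ l, ∀ c : Polynomial ℚ, c ≠ 0 → Polynomial.aeval (mk ℂ (xs l)) c ≠ 0 := by
    intro l c hc
    rw [aeval_mk1, mk_ne_zero]
    obtain ⟨ε, hε, hεc⟩ := small_root c hc
    filter_upwards [hxsmall ε hε] with n hn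
    exact hεc _ (hn l).1 (hn l).2
  -- (3)
  have hrel : ∀ l, ∀ R : MvPolynomial (Fin r) (Polynomial ℚ), MvPolynomial.aeval h R = 0 →
      MvPolynomial.eval₂ (Polynomial.aeval (mk ℂ (xs l)) : Polynomial ℚ →ₐ[ℚ] U ℂ).toRingHom
        (fun j => mk ℂ (zs l (some j))) R = 0 := by
    intro l R hR
    rw [eval₂_mk, mk_eq_zero]
    obtain ⟨ε, hε, hεc⟩ := small_cvc h hGF.hsize
    filter_upwards [hxsmall ε hε] with n hn
    have h1 := (ev_aeval h (xs l n) (hεc _ (hn l).2) R).2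
    rw [hR, ev_zero] at h1
    have h2 : (fun j => zs l (some j) n) = fun j => evc (xs l n) (h j) := by
      funext j
      rw [hzs, hxs]
      rfl
    rw [h2]
    exact h1.symm
  -- (4)
  have hrank2 := hrk r h I hFree (U ℚ) (U ℂ) N (fun l => mk ℂ (xs l)) (fun l o => mk ℂ (zs l o))
    halg hroot hrel hdep
  obtain ⟨n1, hn1⟩ : ∃ n1, N * (I.card + 1) = n1 + 1 := by
    refine ⟨N * (I.card + 1) - 1, ?_⟩
    have : N * (I.card + 1) ≠ 0 := by
      intro h0
      rw [h0] at hrank2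
      exact absurd hrank2 (by simp)
    omega
  have hrank3 : (matroid (U ℚ) (U ℂ)).eRk (Set.range fun p : Fin N × Option (Fin r) =>
      mk ℂ (zs p.1 p.2)) ≤ (n1 : ℕ∞) := by
    rw [hn1] at hrank2
    have h1 : ((n1 + 1 : ℕ) : ℕ∞) = (n1 : ℕ∞) + 1 := by push_cast; rfl
    rw [h1] at hrank2
    exact Order.le_of_lt_add_one hrank2
  obtain ⟨C, hC⟩ := hhf (U ℚ) (U ℂ) (Fin N × Option (Fin r)) (fun p => mk ℂ (zs p.1 p.2)) n1 hrank3
  -- (5)
  obtain ⟨s, hs⟩ : ∃ s : ℕ, 2 * A' * d * (C * (2 * N * (I.card + 1) + 1) ^ n1) ≤ s + 1 :=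
    ⟨2 * A' * d * (C * (2 * N * (I.card + 1) + 1) ^ n1), Nat.le_succ _⟩
  obtain ⟨δ, hδ⟩ : ∃ δ, δ = (I.card + 1) * s := ⟨_, rfl⟩
  obtain ⟨B, hBcard, hB⟩ := hG G hGG I hFree.1 δ
  obtain ⟨E, hE⟩ := hB N d A'
  have hMon : (s + 1) ^ I.card ≤ B.card := by
    refine le_trans ?_ hBcard
    rw [hδ]
    exact card_Mon I s
  have hcard : (s + 1) ^ (n1 + 1) ≤ Fintype.card (Fin N → B × Fin (δ + 1)) := by
    rw [Fintype.card_fun, Fintype.card_prod, Fintype.card_coe, Fintype.card_fin, Fintype.card_fin,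
      ← hn1, mul_comm N, pow_mul, pow_succ]
    refine Nat.pow_le_pow_left (Nat.mul_le_mul hMon ?_) N
    have : s ≤ δ := by
      rw [hδ]
      exact Nat.le_mul_of_pos_left s (Nat.succ_pos _)
    omega
  have hdim : 2 * A' * d * (C * (2 * N * δ + 1) ^ n1) ≤
      Fintype.card (Fin N → B × Fin (δ + 1)) := by
    refine le_trans ?_ hcard
    have h1 : 2 * N * δ + 1 ≤ (2 * N * (I.card + 1) + 1) * (s + 1) := by
      rw [hδ]
      nlinarith [Nat.zero_le (2 * N * (I.card + 1)), Nat.zero_le s]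
    calc 2 * A' * d * (C * (2 * N * δ + 1) ^ n1)
        ≤ 2 * A' * d * (C * ((2 * N * (I.card + 1) + 1) * (s + 1)) ^ n1) := by
          gcongr
      _ = (2 * A' * d * (C * (2 * N * (I.card + 1) + 1) ^ n1)) * (s + 1) ^ n1 := by
          rw [mul_pow]; ring
      _ ≤ (s + 1) * (s + 1) ^ n1 := Nat.mul_le_mul_right _ hs
      _ = (s + 1) ^ (n1 + 1) := (pow_succ' _ _).symm
  -- (6) the products
  obtain ⟨ws, hws⟩ : ∃ ws : (Fin N → B × Fin (δ + 1)) → ℕ → ℂ, ws = fun b n =>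
    ∏ l, (yw (fun j => zs l (some j) n) (b l).1.1 * zs l none n ^ ((b l).2 : ℕ)) := ⟨_, rfl⟩
  obtain ⟨W, hW⟩ : ∃ W : (Fin N → B × Fin (δ + 1)) → U ℂ, W = fun b => mk ℂ (ws b) := ⟨_, rfl⟩
  have hWmem : ∀ b, W b ∈ mons (fun p : Fin N × Option (Fin r) => mk ℂ (zs p.1 p.2))
      (2 * N * δ) := by
    intro b
    have e : W b = ∏ l, (yw (fun j => mk ℂ (zs l (some j))) (b l).1.1 *
        mk ℂ (zs l none) ^ ((b l).2 : ℕ)) := by
      rw [hW]
      simp only
      have e1 : ∀ l, yw (fun j => mk ℂ (zs l (some j))) (b l).1.1 =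
          mk ℂ (fun n => yw (fun j => zs l (some j) n) (b l).1.1) := by
        intro l
        unfold yw
        have e2 : ∀ i, ((b l).1.1 i).elim (1 : U ℂ) (fun j => mk ℂ (zs l (some j))) =
            mk ℂ (fun n => ((b l).1.1 i).elim (1 : ℂ) (fun j => zs l (some j) n)) := by
          intro i
          cases (b l).1.1 i with
          | none => exact (map_one (mk ℂ)).symm
          | some j => rfl
        simp only [e2, ← map_prod]
        congr 1
        funext n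
        rw [Finset.prod_apply]
      simp only [e1, ← map_pow, ← map_mul, ← map_prod]
      congr 1
      funext n
      rw [hws, Finset.prod_apply]
      rfl
    rw [e]
    have h1 := mons_prod (fun p : Fin N × Option (Fin r) => mk ℂ (zs p.1 p.2)) Finset.univ
      (fun l => yw (fun j => mk ℂ (zs l (some j))) (b l).1.1 *
        mk ℂ (zs l none) ^ ((b l).2 : ℕ)) (δ + δ) (by
      intro l _
      refine mons_mul _ ?_ ?_
      · unfold yw
        have h2 := mons_prod (fun p : Fin N × Option (Fin r) => mk ℂ (zs p.1 p.2)) Finset.univ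
          (fun i => ((b l).1.1 i).elim (1 : U ℂ) (fun j => mk ℂ (zs l (some j)))) 1 (by
            intro i _
            cases (b l).1.1 i with
            | none => exact mons_mono _ (Nat.zero_le 1) (mons_one _)
            | some j => exact mons_var (fun p : Fin N × Option (Fin r) => mk ℂ (zs p.1 p.2)) (l, some j))
        rw [Finset.card_univ, Fintype.card_fin, mul_one] at h2
        exact h2
      · refine mons_mono _ (Nat.lt_succ_iff.1 (b l).2.2) (mons_pow _ ?_ _)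
        exact mons_var (fun p : Fin N × Option (Fin r) => mk ℂ (zs p.1 p.2)) (l, none))
    rw [Finset.card_univ, Fintype.card_fin] at h1
    refine mons_mono _ ?_ h1
    nlinarith
  -- the kernel
  obtain ⟨φ, hφ⟩ : ∃ φ : ((Fin N → B × Fin (δ + 1)) → U ℚ) →ₗ[U ℚ] U ℂ,
    φ = Fintype.linearCombination (U ℚ) W := ⟨_, rfl⟩
  have hφa : ∀ f, φ f = ∑ b, f b • W b := by
    intro f
    rw [hφ, Fintype.linearCombination_apply]
  have hfinm := mons_finite (fun p : Fin N × Option (Fin r) => mk ℂ (zs p.1 p.2)) (2 * N * δ)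
  have hfdm : FiniteDimensional (U ℚ) (Submodule.span (U ℚ)
      (mons (fun p : Fin N × Option (Fin r) => mk ℂ (zs p.1 p.2)) (2 * N * δ))) :=
    FiniteDimensional.span_of_finite _ hfinm
  have hrange : finrank (U ℚ) (LinearMap.range φ) ≤ C * (2 * N * δ + 1) ^ n1 := by
    refine le_trans ?_ (hC (2 * N * δ))
    apply Submodule.finrank_mono
    rw [hφ, Fintype.range_linearCombination]
    apply Submodule.span_mono
    rintro _ ⟨b, rfl⟩
    exact hWmem b
  have hrn := LinearMap.finrank_range_add_finrank_ker φ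
  rw [Module.finrank_fintype_fun_eq_card] at hrn
  obtain ⟨n2, hn2⟩ : ∃ n2, n2 = finrank (U ℚ) (LinearMap.ker φ) := ⟨_, rfl⟩
  rw [← hn2] at hrn
  obtain ⟨bas⟩ : Nonempty (Basis (Fin n2) (U ℚ) (LinearMap.ker φ)) := by
    rw [hn2]
    exact ⟨Module.finBasis (U ℚ) (LinearMap.ker φ)⟩
  have hbas : LinearIndependent (U ℚ) (fun i => ((bas i : LinearMap.ker φ) :
      (Fin N → B × Fin (δ + 1)) → U ℚ)) :=
    bas.linearIndependent.map' (LinearMap.ker φ).subtype (Submodule.ker_subtype _)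
  have hrep : ∀ (i : Fin n2) (b : Fin N → B × Fin (δ + 1)), ∃ a : ℕ → ℚ,
      mk ℚ a = ((bas i : LinearMap.ker φ) : (Fin N → B × Fin (δ + 1)) → U ℚ) b :=
    fun i b => mk_surj _
  choose a ha using hrep
  have hbas' : LinearIndependent (U ℚ) (fun i => fun b => mk ℚ (a i b)) := by
    have e : (fun i => fun b => mk ℚ (a i b)) = (fun i => ((bas i : LinearMap.ker φ) :
        (Fin N → B × Fin (δ + 1)) → U ℚ)) := by
      funext i b
      exact ha i b
    rw [e]
    exact hbas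
  have hli := lift_ind a hbas'
  have hvan : ∀ᶠ n in (hyperfilter ℕ : Filter ℕ), ∀ i, ∑ b, ((a i b n : ℚ) : ℂ) * ws b n = 0 := by
    rw [eventually_all]
    intro i
    have h1 : φ ((bas i : LinearMap.ker φ) : (Fin N → B × Fin (δ + 1)) → U ℚ) = 0 :=
      LinearMap.mem_ker.1 (bas i).2
    rw [hφa] at h1
    have h2 : ∑ b, mk ℂ (fun n => ((a i b n : ℚ) : ℂ) * ws b n) = 0 := by
      refine Eq.trans (Finset.sum_congr rfl fun b _ => ?_) h1
      rw [← ha i b, Algebra.smul_def, algebraMap_eq, qc_mk, hW]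
      simp only
      rw [← map_mul]
      rfl
    rw [← map_sum, mk_eq_zero] at h2
    filter_upwards [h2] with n hn
    rw [Finset.sum_apply] at hn
    exact hn
  obtain ⟨n, hn1', hn2', hn3'⟩ := (hli.and (hvan.and (ev_ge E))).exists
  refine hE (H n) (K n) (ξ n) (X n) (hfd n) (hrank n) (hPt n) ?_ (hX n) (g n) (hginj n) (hgb n)
    n2 (fun i b => a i b n) hn1' ?_ ?_
  · refine le_trans (pow_le_pow_right₀ ?_ hn3') (hbig n)
    have : (0 : ℝ) ≤ (H n : ℝ) := Nat.cast_nonneg _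
    linarith
  · intro i
    have h1 := hn2' i
    rw [hws, hzs] at h1
    exact h1
  · refine le_trans (Nat.mul_le_mul_left _ ?_) hdim
    omega

end Pool.Agent.Y475.AF
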